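import Mathlib
import Pool.Agent.H362Z.UM

set_option autoImplicit false

namespace Pool.Agent.Results.MP_a16b96_lc.ZFCExample

/-- `F` is a countable union of closed sets. -/
def IsFsigma {X : Type} [TopologicalSpace X] (F : Set X) : Prop :=
  ∃ K : ℕ → Set X, (∀ n, IsClosed (K n)) ∧ F = ⋃ n, K n

/-- `A` is countably perfectly meager in `X`: for each sequence of nonempty perfect subsets `P n`
of `X` there is an `F_σ` set `F ⊇ A` whose trace on each `P n` is meager in the relative
topology of `P n`. -/
def CountablyPerfectlyMeager {X : Type} [TopologicalSpace X] (A : Set X) : Prop :=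
  ∀ P : ℕ → Set X, (∀ n, Perfect (P n) ∧ (P n).Nonempty) →
    ∃ F : Set X, IsFsigma F ∧ A ⊆ F ∧ ∀ n, IsMeagre (Subtype.val ⁻¹' F : Set (P n))

/-- `A` is universally meager: `f[A]` is meager in `Y` for every perfect Polish space `Y` and
every Borel isomorphism `f : X → Y`. -/
def UniversallyMeager {X : Type} [TopologicalSpace X] (A : Set X) : Prop :=
  ∀ (Y : Type) [TopologicalSpace Y] [PolishSpace Y] [PerfectSpace Y] (f : X ≃ Y),
    @Measurable X Y (borel X) (borel Y) f → @Measurable Y X (borel Y) (borel X) f.symm →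
      IsMeagre (f '' A)

/-- There is a universally meager subset of the Cantor space that is not countably perfectly
meager in the Cantor space. -/
theorem result :
    ∃ A : Set (ℕ → Bool), UniversallyMeager A ∧ ¬ CountablyPerfectlyMeager A := by
  obtain ⟨E, h1, P, hP, h2⟩ := Pool.Agent.H362Z.UM.main
  refine ⟨E, ?_, fun h => ?_⟩
  · intro Y _ _ _ f hf hf'
    borelize Y
    have hb : borel (ℕ → Bool) = MeasurableSpace.pi := BorelSpace.measurable_eq.symm
    rw [hb] at hf hf'
    exact h1 Y ⟨f, hf, hf'⟩
  · obtain ⟨F, ⟨K, hK, rfl⟩, hE, hF⟩ := h P hP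
    exact h2 K hK hE hF

end Pool.Agent.Results.MP_a16b96_lc.ZFCExample
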